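import Mathlib

set_option autoImplicit false

open Complex MeasureTheory Finset

namespace Pool.Agent.Results.MP_7a60ac_an.SharpBound

/-! ### Kaluza's lemma -/

/-- The renewal probabilities of a sequence. -/
noncomputable def bseq (c : ℕ → ℝ) : ℕ → ℝ
  | 0 => 0
  | (n + 1) => c (n + 1) - ∑ k : Fin (n + 1), bseq c k * c (n + 1 - k)

theorem bseq_zero (c : ℕ → ℝ) : bseq c 0 = 0 := by rw [bseq]

theorem bseq_succ (c : ℕ → ℝ) (n : ℕ) :
    bseq c (n + 1) = c (n + 1) - ∑ k ∈ range (n + 1), bseq c k * c (n + 1 - k) := by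
  rw [bseq, Finset.sum_range (fun k => bseq c k * c (n + 1 - k))]

theorem bseq_renewal (c : ℕ → ℝ) (hc0 : c 0 = 1) (n : ℕ) (hn : 1 ≤ n) :
    c n = ∑ k ∈ range (n + 1), bseq c k * c (n - k) := by
  obtain ⟨m, rfl⟩ : ∃ m, n = m + 1 := ⟨n - 1, by omega⟩
  rw [Finset.sum_range_succ, bseq_succ, Nat.sub_self, hc0]
  ring

theorem bseq_nonneg (c : ℕ → ℝ) (hc0 : c 0 = 1) (hpos : ∀ n, 0 < c n)
    (hlog : ∀ n, c (n + 1) ^ 2 ≤ c n * c (n + 2)) (n : ℕ) : 0 ≤ bseq c n := by
  -- ratios increase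
  have hstep : ∀ n, c (n + 1) / c n ≤ c (n + 2) / c (n + 1) := by
    intro n
    rw [div_le_div_iff₀ (hpos n) (hpos (n + 1))]
    have := hlog n
    nlinarith
  have hmono : Monotone (fun n => c (n + 1) / c n) := monotone_nat_of_le_succ hstep
  induction n using Nat.strong_induction_on with
  | _ n ih =>
    rcases n with _ | n
    · rw [bseq_zero]
    rcases n with _ | n
    · rw [bseq_succ]
      simp [bseq_zero, (hpos 1).le]
    rw [bseq_succ]
    have h1 : ∑ k ∈ range (n + 1 + 1), bseq c k * c (n + 1 + 1 - k)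
        ≤ ∑ k ∈ range (n + 1 + 1), (c (n + 2) / c (n + 1)) * (bseq c k * c (n + 1 - k)) := by
      apply Finset.sum_le_sum
      intro k hk
      have hk' : k < n + 2 := Finset.mem_range.mp hk
      have hb := ih k (by omega)
      rcases Nat.eq_zero_or_pos k with hk0 | hk0
      · subst hk0
        rw [bseq_zero]
        simp
      have h2 : c (n + 1 - k + 1) / c (n + 1 - k) ≤ c (n + 1 + 1) / c (n + 1) :=
        hmono (show n + 1 - k ≤ n + 1 by omega)
      have h3 : n + 1 + 1 - k = n + 1 - k + 1 := by omega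
      rw [h3]
      have h4 : c (n + 1 - k + 1) = (c (n + 1 - k + 1) / c (n + 1 - k)) * c (n + 1 - k) := by
        field_simp [(hpos (n + 1 - k)).ne']
      rw [h4]
      calc bseq c k * (c (n + 1 - k + 1) / c (n + 1 - k) * c (n + 1 - k))
          = (c (n + 1 - k + 1) / c (n + 1 - k)) * (bseq c k * c (n + 1 - k)) := by ring
        _ ≤ (c (n + 1 + 1) / c (n + 1)) * (bseq c k * c (n + 1 - k)) :=
            mul_le_mul_of_nonneg_right h2 (mul_nonneg hb (hpos _).le)
    rw [← Finset.mul_sum, ← bseq_renewal c hc0 (n + 1) (by omega)] at h1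
    have h5 : c (n + 2) / c (n + 1) * c (n + 1) = c (n + 2) := by
      field_simp [(hpos (n + 1)).ne']
    rw [h5] at h1
    linarith

/-! ### Integrals against a weight -/

section weight

variable (w : ℝ → ℝ)

theorem int_norm_sub (hw : Continuous w) (h1 : ∫ t in (0:ℝ)..(2 * Real.pi), w t = 1)
    (φ : ℝ → ℂ) (hφ : Continuous φ) (a : ℂ) :
    ∫ t in (0:ℝ)..(2 * Real.pi), ‖φ t - a‖ ^ 2 * w t
      = (∫ t in (0:ℝ)..(2 * Real.pi), ‖φ t‖ ^ 2 * w t)
        - 2 * (starRingEnd ℂ a * ∫ t in (0:ℝ)..(2 * Real.pi), φ t * (w t : ℂ)).re + ‖a‖ ^ 2 := by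
  have hwc : Continuous (fun t => (w t : ℂ)) := Complex.continuous_ofReal.comp hw
  have e1 : (starRingEnd ℂ a * ∫ t in (0:ℝ)..(2 * Real.pi), φ t * (w t : ℂ)).re
      = ∫ t in (0:ℝ)..(2 * Real.pi), (starRingEnd ℂ a * (φ t * (w t : ℂ))).re := by
    rw [← intervalIntegral.integral_const_mul]
    have := (Complex.reCLM.intervalIntegral_comp_comm
      (μ := volume) (a := 0) (b := 2 * Real.pi)
      (f := fun t => starRingEnd ℂ a * (φ t * (w t : ℂ)))
      ((continuous_const.mul (hφ.mul hwc)).intervalIntegrable _ _))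
    simpa using this.symm
  have e2 : ‖a‖ ^ 2 = ∫ t in (0:ℝ)..(2 * Real.pi), ‖a‖ ^ 2 * w t := by
    rw [intervalIntegral.integral_const_mul, h1, mul_one]
  rw [e1, e2, ← intervalIntegral.integral_const_mul, ← intervalIntegral.integral_sub,
    ← intervalIntegral.integral_add]
  · apply intervalIntegral.integral_congr
    intro t _
    have hn : ∀ z : ℂ, ‖z‖ ^ 2 = z.re ^ 2 + z.im ^ 2 := by
      intro z
      rw [← Complex.normSq_eq_norm_sq, Complex.normSq_apply]
      ring
    simp only [hn, Complex.sub_re, Complex.sub_im, Complex.mul_re, Complex.mul_im,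
      Complex.conj_re, Complex.conj_im, Complex.ofReal_re, Complex.ofReal_im]
    ring
  · exact (((hφ.norm.pow 2).mul hw).sub (continuous_const.mul
      (Complex.continuous_re.comp (continuous_const.mul (hφ.mul hwc))))).intervalIntegrable _ _
  · exact (continuous_const.mul hw).intervalIntegrable _ _
  · exact ((hφ.norm.pow 2).mul hw).intervalIntegrable _ _
  · exact (continuous_const.mul
      (Complex.continuous_re.comp (continuous_const.mul (hφ.mul hwc)))).intervalIntegrable _ _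

theorem cauchy_weighted {ι : Type} (s : Finset ι) (b C : ι → ℝ) (y : ι → ℂ)
    (hb : ∀ i ∈ s, 0 ≤ b i) (hC : ∀ i ∈ s, 0 < C i) :
    ‖∑ i ∈ s, (b i : ℂ) * y i‖ ^ 2
      ≤ (∑ i ∈ s, b i * C i) * ∑ i ∈ s, b i / C i * ‖y i‖ ^ 2 := by
  have h1 : ‖∑ i ∈ s, (b i : ℂ) * y i‖ ≤ ∑ i ∈ s, b i * ‖y i‖ := by
    refine (norm_sum_le _ _).trans (le_of_eq ?_)
    apply Finset.sum_congr rfl
    intro i hi
    rw [norm_mul, Complex.norm_real, Real.norm_of_nonneg (hb i hi)]
  have h2 : (∑ i ∈ s, b i * ‖y i‖) ^ 2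
      ≤ (∑ i ∈ s, b i * C i) * ∑ i ∈ s, b i / C i * ‖y i‖ ^ 2 := by
    apply Finset.sum_sq_le_sum_mul_sum_of_sq_le_mul
    · intro i hi
      exact mul_nonneg (hb i hi) (hC i hi).le
    · intro i hi
      exact mul_nonneg (div_nonneg (hb i hi) (hC i hi).le) (sq_nonneg _)
    · intro i hi
      apply le_of_eq
      field_simp [(hC i hi).ne']
  calc ‖∑ i ∈ s, (b i : ℂ) * y i‖ ^ 2 ≤ (∑ i ∈ s, b i * ‖y i‖) ^ 2 :=
        pow_le_pow_left₀ (norm_nonneg _) h1 2
    _ ≤ _ := h2

/-- the key estimate: reciprocal of a Hadamard product of a renewal sequence with a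
positive definite sequence. -/
theorem renewal_bound (c b : ℕ → ℝ) (hc0 : c 0 = 1) (hb : ∀ k, 0 ≤ b k) (hb0 : b 0 = 0)
    (hpos : ∀ n, 0 < c n)
    (hren : ∀ n, 1 ≤ n → c n = ∑ k ∈ range (n + 1), b k * c (n - k))
    (hw : Continuous w) (hw0 : ∀ t, 0 ≤ w t)
    (h1 : ∫ t in (0:ℝ)..(2 * Real.pi), w t = 1)
    (m : ℕ → ℂ)
    (hm : ∀ k : ℕ, ∫ t in (0:ℝ)..(2 * Real.pi), exp (-(t:ℂ) * I) ^ k * (w t : ℂ) = m k)
    (r : ℕ → ℂ) (hr0 : r 0 = 1)
    (hr : ∀ n, 1 ≤ n → ∑ p ∈ antidiagonal n,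
      (if p.1 = 0 then (1:ℂ) else 2 * (c p.1 : ℂ) * m p.1) * r p.2 = 0) :
    ∀ n, 1 ≤ n → ‖r n‖ ≤ 2 * c n := by
  have hpi : (0:ℝ) ≤ 2 * Real.pi := by positivity
  set Φ : ℕ → ℝ → ℂ := fun n t =>
    -∑ p ∈ antidiagonal n, (c p.1 : ℂ) * exp (-(t:ℂ) * I) ^ p.1 * r p.2 with hΦ
  have hΦc : ∀ n, Continuous (Φ n) := by
    intro n
    simp only [hΦ]
    refine Continuous.neg (continuous_finsetSum _ fun p _ => ?_)
    fun_prop
  have hwc : Continuous (fun t => (w t : ℂ)) := Complex.continuous_ofReal.comp hw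
  have hm0 : m 0 = 1 := by
    rw [← hm 0]
    have : (∫ t in (0:ℝ)..(2 * Real.pi), exp (-(t:ℂ) * I) ^ 0 * (w t : ℂ))
        = ((∫ t in (0:ℝ)..(2 * Real.pi), w t : ℝ) : ℂ) := by
      rw [← intervalIntegral.integral_ofReal]
      apply intervalIntegral.integral_congr
      intro t _
      simp
    rw [this, h1]
    simp
  -- expectation of `Φ n`
  have hE : ∀ n, 1 ≤ n → ∫ t in (0:ℝ)..(2 * Real.pi), Φ n t * (w t : ℂ) = -(r n) / 2 := by
    intro n hn
    have e1 : ∀ t : ℝ, Φ n t * (w t : ℂ)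
        = ∑ p ∈ antidiagonal n, (-((c p.1 : ℂ) * r p.2)) *
          (exp (-(t:ℂ) * I) ^ p.1 * (w t : ℂ)) := by
      intro t
      simp only [hΦ]
      rw [neg_mul, Finset.sum_mul, ← Finset.sum_neg_distrib]
      apply Finset.sum_congr rfl
      intro p _
      ring
    rw [intervalIntegral.integral_congr (fun t _ => e1 t), intervalIntegral.integral_finsetSum]
    · simp only [intervalIntegral.integral_const_mul, hm]
      have e2 : ∀ p ∈ antidiagonal n, (-((c p.1 : ℂ) * r p.2)) * m p.1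
          = -(1/2) * ((if p.1 = 0 then (1:ℂ) else 2 * (c p.1 : ℂ) * m p.1) * r p.2)
            - (1/2) * (if p.1 = 0 then r p.2 else 0) := by
        intro p _
        by_cases h0 : p.1 = 0
        · rw [if_pos h0, if_pos h0, h0, hc0, hm0]
          push_cast
          ring
        · rw [if_neg h0, if_neg h0]
          ring
      rw [Finset.sum_congr rfl e2, Finset.sum_sub_distrib, ← Finset.mul_sum, ← Finset.mul_sum,
        hr n hn]
      have e3 : ∑ p ∈ antidiagonal n, (if p.1 = 0 then r p.2 else 0) = r n := by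
        rw [Finset.sum_eq_single (0, n)]
        · simp
        · rintro ⟨i, j⟩ hij hne
          rw [if_neg]
          rintro rfl
          apply hne
          simp at hij
          simp [hij]
        · intro h
          exact absurd (by simp) h
      rw [e3]
      ring
    · intro p _
      apply Continuous.intervalIntegrable
      fun_prop
  -- the renewal identity
  have hid : ∀ n, 1 ≤ n → ∀ t, Φ n t + r n
      = ∑ p ∈ antidiagonal n, (b p.1 : ℂ) * (exp (-(t:ℂ) * I) ^ p.1 * Φ p.2 t) := by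
    intro n hn t
    set x : ℂ := exp (-(t:ℂ) * I) with hx
    set B : PowerSeries ℂ := PowerSeries.mk fun k => (b k : ℂ) * x ^ k with hB
    set C : PowerSeries ℂ := PowerSeries.mk fun k => (c k : ℂ) * x ^ k with hC
    set R : PowerSeries ℂ := PowerSeries.mk r with hR
    have hBC : B * C = C - 1 := by
      ext k
      rw [PowerSeries.coeff_mul]
      rcases Nat.eq_zero_or_pos k with rfl | hk
      · simp [hB, hC, hb0, hc0]
      · have h3 : ∀ p ∈ antidiagonal k, PowerSeries.coeff p.1 B * PowerSeries.coeff p.2 C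
            = ((b p.1 * c p.2 : ℝ) : ℂ) * x ^ k := by
          intro p hp
          have hp' : p.1 + p.2 = k := by simpa using hp
          rw [hB, hC, PowerSeries.coeff_mk, PowerSeries.coeff_mk, ← hp', pow_add]
          push_cast
          ring
        rw [Finset.sum_congr rfl h3, ← Finset.sum_mul, ← Complex.ofReal_sum,
          Finset.Nat.sum_antidiagonal_eq_sum_range_succ (fun i j => b i * c j) k,
          ← hren k hk]
        simp only [map_sub, hC, PowerSeries.coeff_mk, PowerSeries.coeff_one]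
        rw [if_neg (by omega)]
        ring
    have hP : ∀ k, PowerSeries.coeff k (-(C * R)) = Φ k t := by
      intro k
      rw [map_neg, PowerSeries.coeff_mul]
      simp only [hΦ, hC, hR, PowerSeries.coeff_mk, ← hx]
    have hkey : B * (-(C * R)) = -(C * R) + R := by
      have : B * (-(C * R)) = -((B * C) * R) := by ring
      rw [this, hBC]
      ring
    have h4 := congrArg (PowerSeries.coeff n) hkey
    rw [PowerSeries.coeff_mul, map_add, hP, hR, PowerSeries.coeff_mk] at h4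
    rw [← h4]
    apply Finset.sum_congr rfl
    intro p _
    rw [← hR, hP, hB, PowerSeries.coeff_mk]
    ring
  -- norms
  have hN : ∀ n, ∫ t in (0:ℝ)..(2 * Real.pi), ‖Φ n t‖ ^ 2 * w t ≤ c n ^ 2 := by
    intro n
    induction n using Nat.strong_induction_on with
    | _ n ih =>
      rcases Nat.eq_zero_or_pos n with rfl | hn
      · have : ∀ t : ℝ, ‖Φ 0 t‖ ^ 2 * w t = w t := by
          intro t
          simp [hΦ, hc0, hr0]
        rw [intervalIntegral.integral_congr (fun t _ => this t), h1, hc0]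
        norm_num
      have e1 := int_norm_sub w hw h1 (Φ n) (hΦc n) (-(r n))
      rw [hE n hn] at e1
      have e2 : (starRingEnd ℂ (-(r n)) * (-(r n) / 2)).re = ‖r n‖ ^ 2 / 2 := by
        rw [← Complex.normSq_eq_norm_sq, Complex.normSq_apply]
        simp only [map_neg, Complex.mul_re, Complex.neg_re, Complex.neg_im, Complex.conj_re,
          Complex.conj_im, Complex.div_ofNat_re, Complex.div_ofNat_im]
        ring
      rw [e2, norm_neg] at e1
      have e3 : ∫ t in (0:ℝ)..(2 * Real.pi), ‖Φ n t‖ ^ 2 * w t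
          = ∫ t in (0:ℝ)..(2 * Real.pi), ‖Φ n t - -(r n)‖ ^ 2 * w t := by
        rw [e1]
        ring
      rw [e3]
      have e4 : ∀ t : ℝ, ‖Φ n t - -(r n)‖ ^ 2 * w t
          ≤ ∑ p ∈ antidiagonal n, (c n * (b p.1 / c p.2)) * (‖Φ p.2 t‖ ^ 2 * w t) := by
        intro t
        rw [sub_neg_eq_add, hid n hn t]
        have e5 := cauchy_weighted (antidiagonal n) (fun p => b p.1) (fun p => c p.2)
          (fun p => exp (-(t:ℂ) * I) ^ p.1 * Φ p.2 t) (fun p _ => hb _) (fun p _ => hpos _)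
        rw [Finset.Nat.sum_antidiagonal_eq_sum_range_succ (fun i j => b i * c j) n,
          ← hren n hn] at e5
        have e6 : ∀ p ∈ antidiagonal n, b p.1 / c p.2 * ‖exp (-(t:ℂ) * I) ^ p.1 * Φ p.2 t‖ ^ 2
            = b p.1 / c p.2 * ‖Φ p.2 t‖ ^ 2 := by
          intro p _
          rw [norm_mul, norm_pow, Complex.norm_exp]
          simp
        rw [Finset.sum_congr rfl e6] at e5
        calc ‖∑ p ∈ antidiagonal n, (b p.1 : ℂ) * (exp (-(t:ℂ) * I) ^ p.1 * Φ p.2 t)‖ ^ 2 * w t
            ≤ (c n * ∑ p ∈ antidiagonal n, b p.1 / c p.2 * ‖Φ p.2 t‖ ^ 2) * w t :=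
              mul_le_mul_of_nonneg_right e5 (hw0 t)
          _ = _ := by
              rw [mul_assoc, Finset.sum_mul, Finset.mul_sum]
              apply Finset.sum_congr rfl
              intro p _
              ring
      have e7 : ∫ t in (0:ℝ)..(2 * Real.pi), ‖Φ n t - -(r n)‖ ^ 2 * w t
          ≤ ∫ t in (0:ℝ)..(2 * Real.pi),
            ∑ p ∈ antidiagonal n, (c n * (b p.1 / c p.2)) * (‖Φ p.2 t‖ ^ 2 * w t) := by
        apply intervalIntegral.integral_mono_on hpi
        · exact ((((hΦc n).sub continuous_const).norm.pow 2).mul hw).intervalIntegrable _ _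
        · apply Continuous.intervalIntegrable
          refine continuous_finsetSum _ fun p _ => ?_
          exact continuous_const.mul (((hΦc _).norm.pow 2).mul hw)
        · intro t _
          exact e4 t
      refine e7.trans ?_
      rw [intervalIntegral.integral_finsetSum]
      · simp only [intervalIntegral.integral_const_mul]
        have e8 : ∀ p ∈ antidiagonal n, (c n * (b p.1 / c p.2)) *
            (∫ t in (0:ℝ)..(2 * Real.pi), ‖Φ p.2 t‖ ^ 2 * w t) ≤ c n * (b p.1 * c p.2) := by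
          intro p hp
          have hp' : p.1 + p.2 = n := by simpa using hp
          rcases Nat.eq_zero_or_pos p.1 with h0 | h0
          · rw [h0, hb0]
            simp
          · have hlt : p.2 < n := by omega
            have h9 := ih p.2 hlt
            have h10 : 0 ≤ c n * (b p.1 / c p.2) :=
              mul_nonneg (hpos n).le (div_nonneg (hb _) (hpos _).le)
            calc (c n * (b p.1 / c p.2)) *
                (∫ t in (0:ℝ)..(2 * Real.pi), ‖Φ p.2 t‖ ^ 2 * w t)
                ≤ (c n * (b p.1 / c p.2)) * c p.2 ^ 2 := mul_le_mul_of_nonneg_left h9 h10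
              _ = c n * (b p.1 * c p.2) := by
                  field_simp [(hpos p.2).ne']
        refine (Finset.sum_le_sum e8).trans (le_of_eq ?_)
        rw [← Finset.mul_sum,
          Finset.Nat.sum_antidiagonal_eq_sum_range_succ (fun i j => b i * c j) n, ← hren n hn]
        ring
      · intro p _
        exact (continuous_const.mul (((hΦc _).norm.pow 2).mul hw)).intervalIntegrable _ _
  -- conclusion
  intro n hn
  have e1 := int_norm_sub w hw h1 (Φ n) (hΦc n) (-(r n) / 2)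
  rw [hE n hn] at e1
  have e2 : (starRingEnd ℂ (-(r n) / 2) * (-(r n) / 2)).re = ‖r n‖ ^ 2 / 4 := by
    rw [← Complex.normSq_eq_norm_sq, Complex.normSq_apply]
    simp only [map_neg, map_div₀, Complex.mul_re, Complex.neg_re, Complex.neg_im,
      Complex.conj_re, map_ofNat,
      Complex.conj_im, Complex.div_ofNat_re, Complex.div_ofNat_im]
    ring
  have e3 : ‖-(r n) / 2‖ ^ 2 = ‖r n‖ ^ 2 / 4 := by
    rw [norm_div, norm_neg, div_pow]
    norm_num
  rw [e2, e3] at e1
  have e4 : 0 ≤ ∫ t in (0:ℝ)..(2 * Real.pi), ‖Φ n t - -(r n) / 2‖ ^ 2 * w t := by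
    apply intervalIntegral.integral_nonneg hpi
    intro t _
    exact mul_nonneg (sq_nonneg _) (hw0 t)
  have e5 := hN n
  have e6 : ‖r n‖ ^ 2 ≤ (2 * c n) ^ 2 := by nlinarith
  exact (abs_le_of_sq_le_sq' e6 (by have := hpos n; positivity)).2

end weight

/-! ### Coefficients as integrals over a circle -/

theorem mean_coeff (h : ℂ → ℂ) (hh : DifferentiableOn ℂ h (Metric.ball 0 1)) (ρ : ℝ)
    (h0 : 0 < ρ) (h1 : ρ < 1) (k : ℕ) :
    ∫ t in (0:ℝ)..(2 * Real.pi), exp (-(t:ℂ) * I) ^ k * h (circleMap 0 ρ t)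
      = 2 * Real.pi * (ρ:ℂ) ^ k * (iteratedDeriv k h 0 / (k.factorial : ℂ)) := by
  have hd : DifferentiableOn ℂ h (Metric.closedBall 0 ρ) :=
    hh.mono (Metric.closedBall_subset_ball h1)
  have h2 := hd.circleIntegral_one_div_sub_center_pow_smul h0 k
  rw [circleIntegral] at h2
  have hρ : (ρ:ℂ) ≠ 0 := by exact_mod_cast h0.ne'
  have e1 : ∀ t : ℝ, deriv (circleMap 0 ρ) t • (1 / (circleMap 0 ρ t - 0) ^ (k + 1)) •
      h (circleMap 0 ρ t) = (I * ((ρ:ℂ) ^ k)⁻¹) * (exp (-(t:ℂ) * I) ^ k * h (circleMap 0 ρ t)) := by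
    intro t
    rw [deriv_circleMap, sub_zero]
    have hc : circleMap 0 ρ t = ρ * exp (t * I) := by simp [circleMap]
    have hne : exp (t * I) ≠ 0 := exp_ne_zero _
    have hinv : exp (-(t:ℂ) * I) = (exp (t * I))⁻¹ := by
      rw [← Complex.exp_neg]
      congr 1
      ring
    simp only [smul_eq_mul]
    rw [hinv]
    rw [show (circleMap 0 ρ t) = ρ * exp (t * I) from hc]
    generalize h (ρ * exp (t * I)) = H
    generalize exp (t * I) = E at hne ⊢
    rw [mul_pow, inv_pow, pow_succ (ρ:ℂ) k, pow_succ E k]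
    field_simp
  rw [intervalIntegral.integral_congr (fun t _ => e1 t), intervalIntegral.integral_const_mul] at h2
  have hI : I ≠ 0 := I_ne_zero
  have hk : (k.factorial : ℂ) ≠ 0 := by exact_mod_cast k.factorial_ne_zero
  rw [smul_eq_mul] at h2
  have h3 : (∫ t in (0:ℝ)..(2 * Real.pi), exp (-(t:ℂ) * I) ^ k * h (circleMap 0 ρ t))
      = (I * ((ρ:ℂ) ^ k)⁻¹)⁻¹ * ((2 * Real.pi * I / k.factorial) * iteratedDeriv k h 0) := by
    rw [← h2, ← mul_assoc, inv_mul_cancel₀ (mul_ne_zero hI (inv_ne_zero (pow_ne_zero _ hρ))),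
      one_mul]
  rw [h3]
  field_simp

theorem mean_anti (h : ℂ → ℂ) (hh : DifferentiableOn ℂ h (Metric.ball 0 1)) (ρ : ℝ)
    (h0 : 0 < ρ) (h1 : ρ < 1) (k : ℕ) (hk : 1 ≤ k) :
    ∫ t in (0:ℝ)..(2 * Real.pi), exp ((t:ℂ) * I) ^ k * h (circleMap 0 ρ t) = 0 := by
  have hg : DifferentiableOn ℂ (fun z => z ^ k * h z) (Metric.ball 0 1) :=
    (differentiableOn_id.pow k).mul hh
  have h2 := mean_coeff (fun z => z ^ k * h z) hg ρ h0 h1 0
  have hρ : (ρ:ℂ) ≠ 0 := by exact_mod_cast h0.ne'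
  simp only [pow_zero, one_mul, iteratedDeriv_zero, zero_pow (show k ≠ 0 by omega), zero_mul,
    zero_div, mul_zero] at h2
  have e1 : ∀ t : ℝ, circleMap 0 ρ t ^ k * h (circleMap 0 ρ t)
      = (ρ:ℂ) ^ k * (exp ((t:ℂ) * I) ^ k * h (circleMap 0 ρ t)) := by
    intro t
    have hc : circleMap 0 ρ t = ρ * exp (t * I) := by simp [circleMap]
    nth_rewrite 1 [hc]
    rw [mul_pow]
    ring
  rw [intervalIntegral.integral_congr (fun t _ => e1 t), intervalIntegral.integral_const_mul] at h2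
  exact (mul_eq_zero.mp h2).resolve_left (pow_ne_zero _ hρ)

theorem moments (h : ℂ → ℂ) (hh : DifferentiableOn ℂ h (Metric.ball 0 1)) (hh0 : h 0 = 1)
    (ρ : ℝ) (h0 : 0 < ρ) (h1 : ρ < 1) (k : ℕ) :
    ∫ t in (0:ℝ)..(2 * Real.pi), exp (-(t:ℂ) * I) ^ k *
        (((h (circleMap 0 ρ t)).re / (2 * Real.pi) : ℝ) : ℂ)
      = if k = 0 then 1 else (ρ:ℂ) ^ k * (iteratedDeriv k h 0 / (k.factorial : ℂ)) / 2 := by
  have hpi : (Real.pi : ℂ) ≠ 0 := by exact_mod_cast Real.pi_ne_zero
  have hcont : Continuous (fun t : ℝ => h (circleMap 0 ρ t)) := by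
    have : ContinuousOn h (Metric.ball 0 1) := hh.continuousOn
    refine this.comp_continuous (continuous_circleMap 0 ρ) ?_
    intro t
    rw [Metric.mem_ball, dist_zero_right]
    simp [circleMap, abs_of_pos h0, h1]
  have e1 : ∀ t : ℝ, exp (-(t:ℂ) * I) ^ k *
        (((h (circleMap 0 ρ t)).re / (2 * Real.pi) : ℝ) : ℂ)
      = (1 / (4 * Real.pi)) * (exp (-(t:ℂ) * I) ^ k * h (circleMap 0 ρ t))
        + (1 / (4 * Real.pi)) *
          starRingEnd ℂ (exp ((t:ℂ) * I) ^ k * h (circleMap 0 ρ t)) := by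
    intro t
    have e2 : starRingEnd ℂ (exp ((t:ℂ) * I)) = exp (-(t:ℂ) * I) := by
      rw [← Complex.exp_conj]
      simp
    rw [map_mul, map_pow, e2]
    have e3 : (((h (circleMap 0 ρ t)).re / (2 * Real.pi) : ℝ) : ℂ)
        = (h (circleMap 0 ρ t) + starRingEnd ℂ (h (circleMap 0 ρ t))) / (4 * Real.pi) := by
      rw [Complex.add_conj]
      push_cast
      field_simp
      ring
    rw [e3]
    field_simp
  have hconj : ∫ t in (0:ℝ)..(2 * Real.pi),
      starRingEnd ℂ (exp ((t:ℂ) * I) ^ k * h (circleMap 0 ρ t))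
      = starRingEnd ℂ (∫ t in (0:ℝ)..(2 * Real.pi), exp ((t:ℂ) * I) ^ k * h (circleMap 0 ρ t)) := by
    rw [intervalIntegral.integral_of_le (by positivity),
      intervalIntegral.integral_of_le (by positivity)]
    exact integral_conj
  rw [intervalIntegral.integral_congr (fun t _ => e1 t), intervalIntegral.integral_add,
    intervalIntegral.integral_const_mul, intervalIntegral.integral_const_mul, hconj,
    mean_coeff h hh ρ h0 h1 k]
  · rcases Nat.eq_zero_or_pos k with rfl | hk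
    · have h3 := mean_coeff h hh ρ h0 h1 0
      simp only [pow_zero, one_mul, iteratedDeriv_zero, Nat.factorial_zero, Nat.cast_one, div_one,
        mul_one, hh0] at h3
      simp only [pow_zero, one_mul, iteratedDeriv_zero, Nat.factorial_zero, Nat.cast_one, div_one,
        mul_one, hh0, if_true]
      rw [h3]
      simp only [map_mul, map_ofNat, Complex.conj_ofReal]
      field_simp
      ring
    · rw [mean_anti h hh ρ h0 h1 k hk, map_zero, mul_zero, add_zero, if_neg (by omega)]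
      field_simp
      ring
  · exact ((continuous_const.mul ((by fun_prop : Continuous fun t : ℝ =>
      exp (-(t:ℂ) * I) ^ k).mul hcont))).intervalIntegrable _ _
  · exact (continuous_const.mul (Complex.continuous_conj.comp ((by fun_prop :
      Continuous fun t : ℝ => exp ((t:ℂ) * I) ^ k).mul hcont))).intervalIntegrable _ _

/-! ### Taylor series -/

/-- The Taylor series of a function at `0`. -/
noncomputable def T (φ : ℂ → ℂ) : PowerSeries ℂ :=
  PowerSeries.mk fun k => iteratedDeriv k φ 0 / (k.factorial : ℂ)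

theorem T_coeff (φ : ℂ → ℂ) (k : ℕ) :
    PowerSeries.coeff k (T φ) = iteratedDeriv k φ 0 / (k.factorial : ℂ) := by
  rw [T, PowerSeries.coeff_mk]

theorem T_congr {φ ψ : ℂ → ℂ} (h : φ =ᶠ[nhds 0] ψ) : T φ = T ψ := by
  ext k
  rw [T_coeff, T_coeff, h.iteratedDeriv_eq k]

theorem T_mul {φ ψ : ℂ → ℂ} (hφ : AnalyticAt ℂ φ 0) (hψ : AnalyticAt ℂ ψ 0) :
    T (fun z => φ z * ψ z) = T φ * T ψ := by
  ext n
  rw [T_coeff, PowerSeries.coeff_mul]
  have h1 := iteratedDeriv_fun_mul (n := n) (hφ.contDiffAt) (hψ.contDiffAt)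
  rw [h1, Finset.Nat.sum_antidiagonal_eq_sum_range_succ
    (fun i j => PowerSeries.coeff i (T φ) * PowerSeries.coeff j (T ψ)) n, Finset.sum_div]
  apply Finset.sum_congr rfl
  intro i hi
  have hi' : i ≤ n := by
    have := Finset.mem_range.mp hi
    omega
  rw [T_coeff, T_coeff]
  have h2 : (n.choose i : ℂ) = n.factorial / (i.factorial * (n - i).factorial) := by
    rw [Nat.cast_choose ℂ hi']
  rw [h2]
  have h3 : (n.factorial : ℂ) ≠ 0 := by exact_mod_cast n.factorial_ne_zero
  have h4 : (i.factorial : ℂ) ≠ 0 := by exact_mod_cast i.factorial_ne_zero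
  have h5 : ((n - i).factorial : ℂ) ≠ 0 := by exact_mod_cast (n - i).factorial_ne_zero
  field_simp

theorem T_deriv (φ : ℂ → ℂ) : T (deriv φ) = PowerSeries.derivative ℂ (T φ) := by
  ext n
  rw [PowerSeries.coeff_derivative, T_coeff, T_coeff, iteratedDeriv_succ', Nat.factorial_succ]
  have h3 : (n.factorial : ℂ) ≠ 0 := by exact_mod_cast n.factorial_ne_zero
  have h4 : (n : ℂ) + 1 ≠ 0 := by exact_mod_cast Nat.succ_ne_zero n
  push_cast
  field_simp

theorem T_id : T (fun z => z) = PowerSeries.X := by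
  ext n
  rw [T_coeff, iteratedDeriv_fun_id_zero, PowerSeries.coeff_X]
  by_cases h : n = 1
  · subst h
    simp
  · simp [h]

/-! ### The binomial expansion in the ring of formal power series -/

open PowerSeries in
theorem binom_expansion (P Q : PowerSeries ℂ) (β : ℂ) (hP : coeff 0 P = 1) (hQ : coeff 0 Q = 1)
    (hPQ : P * derivative ℂ Q = C β * derivative ℂ P * Q)
    (bb : ℕ → ℂ) (hb0 : bb 0 = 1) (hb : ∀ k : ℕ, bb (k + 1) * (k + 1) = bb k * (β - k)) (N : ℕ) :
    coeff N Q = ∑ k ∈ range (N + 1), bb k * coeff N ((P - 1) ^ k) := by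
  set Y : PowerSeries ℂ := P - 1 with hY
  have hY0 : coeff 0 Y = 0 := by
    rw [hY, map_sub, hP]
    simp
  have hdY : derivative ℂ Y = derivative ℂ P := by
    rw [hY, map_sub, derivative_one, sub_zero]
  have hPY : P = 1 + Y := by
    rw [hY]
    ring
  set V : ℕ → PowerSeries ℂ := fun N => ∑ k ∈ range (N + 1), C (bb k) * Y ^ k with hV
  have hkey : ∀ N : ℕ, P * derivative ℂ (V N)
      = C β * V N * derivative ℂ P - (C β - (N : PowerSeries ℂ)) * C (bb N) * Y ^ N
        * derivative ℂ P := by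
    intro N
    induction N with
    | zero =>
      simp only [hV, zero_add, Finset.sum_range_one, pow_zero, mul_one, derivative_C, mul_zero,
        Nat.cast_zero, sub_zero]
      ring
    | succ N ih =>
      have e1 : V (N + 1) = V N + C (bb (N + 1)) * Y ^ (N + 1) := by
        simp only [hV]
        rw [Finset.sum_range_succ]
      have e2 : derivative ℂ (C (bb (N + 1)) * Y ^ (N + 1))
          = C (bb (N + 1)) * (((N : PowerSeries ℂ) + 1) * Y ^ N * derivative ℂ P) := by
        rw [Derivation.leibniz, derivative_C, smul_zero, add_zero, derivative_pow, hdY,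
          smul_eq_mul]
        push_cast
        simp
      have e3 : C (bb (N + 1)) * ((N : PowerSeries ℂ) + 1)
          = C (bb N) * (C β - (N : PowerSeries ℂ)) := by
        have := congrArg (C (R := ℂ)) (hb N)
        simpa using this
      rw [e1, map_add, mul_add, ih, e2]
      push_cast
      rw [hPY]
      rw [hPY] at ih
      linear_combination (Y ^ N * derivative ℂ (1 + Y)) * e3
  have hD : P * derivative ℂ (Q - V N)
      = C β * (Q - V N) * derivative ℂ P + (C β - (N : PowerSeries ℂ)) * C (bb N) * Y ^ N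
        * derivative ℂ P := by
    rw [map_sub, mul_sub, hPQ, hkey N]
    ring
  have hzero : ∀ k, k ≤ N → coeff k (Q - V N) = 0 := by
    intro k
    induction k using Nat.strong_induction_on with
    | _ k ih =>
      intro hk
      rcases k with _ | k
      · rw [map_sub, hQ]
        have : coeff 0 (V N) = 1 := by
          simp only [hV]
          rw [map_sum, Finset.sum_range_succ']
          have h2 : ∀ i ∈ range N, coeff 0 (C (bb (i + 1)) * Y ^ (i + 1)) = 0 := by
            intro i _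
            rw [coeff_C_mul, pow_succ, coeff_zero_eq_constantCoeff_apply, map_mul,
              ← coeff_zero_eq_constantCoeff_apply Y, hY0]
            simp
          rw [Finset.sum_eq_zero h2]
          simp [hb0]
        rw [this, sub_self]
      · have h3 := congrArg (coeff k) hD
        rw [map_add, coeff_mul] at h3
        have h4 : coeff k (C β * (Q - V N) * derivative ℂ P) = 0 := by
          rw [mul_assoc, coeff_C_mul, coeff_mul]
          rw [Finset.sum_eq_zero, mul_zero]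
          intro p hp
          have hp' : p.1 + p.2 = k := by simpa using hp
          rw [ih p.1 (by omega) (by omega), zero_mul]
        have h5 : coeff k ((C β - (N : PowerSeries ℂ)) * C (bb N) * Y ^ N
            * derivative ℂ P) = 0 := by
          have hXY : X ∣ Y := by
            rw [X_dvd_iff, ← coeff_zero_eq_constantCoeff_apply, hY0]
          have hXN : X ^ N ∣ (C β - (N : PowerSeries ℂ)) * C (bb N) * Y ^ N
              * derivative ℂ P :=
            Dvd.dvd.mul_right (Dvd.dvd.mul_left (pow_dvd_pow_of_dvd hXY N) _) _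
          exact (X_pow_dvd_iff.mp hXN) k (by omega)
        rw [h4, h5, add_zero, Finset.sum_eq_single (0, k)] at h3
        · simp only [hP, coeff_derivative, one_mul] at h3
          have h6 : ((k : ℂ) + 1) ≠ 0 := by exact_mod_cast Nat.succ_ne_zero k
          exact (mul_eq_zero.mp h3).resolve_right h6
        · rintro ⟨i, j⟩ hij hne
          have hij' : i + j = k := by simpa using hij
          have hj : j < k := by
            rcases Nat.eq_zero_or_pos i with h0 | h0
            · exfalso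
              apply hne
              rw [h0] at hij'
              rw [h0, show j = k by omega]
            · omega
          simp only [coeff_derivative]
          rw [ih (j + 1) (by omega) (by omega)]
          ring
        · intro h
          exact absurd (by simp) h
  have h7 := hzero N le_rfl
  rw [map_sub, sub_eq_zero] at h7
  rw [h7]
  simp only [hV]
  rw [map_sum]
  apply Finset.sum_congr rfl
  intro k _
  rw [coeff_C_mul]

open PowerSeries in
theorem geom_expansion (Y : PowerSeries ℂ) (hY0 : coeff 0 Y = 0) (x : ℂ) (N : ℕ) :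
    coeff N ((1 + C x * Y)⁻¹) = ∑ k ∈ range (N + 1), (-x) ^ k * coeff N (Y ^ k) := by
  set W : PowerSeries ℂ := C (-x) * Y with hW
  have h1 : 1 + C x * Y = 1 - W := by
    rw [hW, map_neg]
    ring
  have hXY : X ∣ Y := by
    rw [X_dvd_iff, ← coeff_zero_eq_constantCoeff_apply, hY0]
  have hXW : X ∣ W := Dvd.dvd.mul_left hXY _
  have hc : constantCoeff (1 - W) ≠ 0 := by
    rw [map_sub, (X_dvd_iff.mp hXW)]
    simp
  have h2 : (1 - W) * ∑ k ∈ range (N + 1), W ^ k = 1 - W ^ (N + 1) := mul_neg_geom_sum W (N + 1)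
  have h3 : (1 - W)⁻¹ = ∑ k ∈ range (N + 1), W ^ k + (1 - W)⁻¹ * W ^ (N + 1) := by
    have h4 : (1 - W)⁻¹ * (1 - W) = 1 := PowerSeries.inv_mul_cancel _ hc
    calc (1 - W)⁻¹ = (1 - W)⁻¹ * (1 - W ^ (N + 1)) + (1 - W)⁻¹ * W ^ (N + 1) := by ring
      _ = ((1 - W)⁻¹ * (1 - W)) * ∑ k ∈ range (N + 1), W ^ k + (1 - W)⁻¹ * W ^ (N + 1) := by
          rw [← h2]
          ring
      _ = _ := by rw [h4, one_mul]
  rw [h1, h3, map_add]
  have h5 : coeff N ((1 - W)⁻¹ * W ^ (N + 1)) = 0 := by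
    have : X ^ (N + 1) ∣ (1 - W)⁻¹ * W ^ (N + 1) :=
      Dvd.dvd.mul_left (pow_dvd_pow_of_dvd hXW (N + 1)) _
    exact (X_pow_dvd_iff.mp this) N (by omega)
  rw [h5, add_zero, map_sum]
  apply Finset.sum_congr rfl
  intro k _
  rw [hW, mul_pow, ← map_pow, coeff_C_mul]

/-! ### The bound for reciprocals -/

/-- the comparison sequence -/
noncomputable def cseq (x α : ℝ) (k : ℕ) : ℝ := if k = 0 then 1 else x * α / (k + α)

theorem cseq_pos (x α : ℝ) (hx : 0 < x) (hα : 0 < α) (k : ℕ) : 0 < cseq x α k := by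
  unfold cseq
  split_ifs
  · norm_num
  · have : (0:ℝ) ≤ k := Nat.cast_nonneg k
    positivity

theorem cseq_log (x α : ℝ) (hx : 0 < x) (hx1 : x ≤ 1) (hα : 0 < α) (n : ℕ) :
    cseq x α (n + 1) ^ 2 ≤ cseq x α n * cseq x α (n + 2) := by
  rcases n with _ | n
  · simp only [cseq]
    norm_num
    rw [div_pow, div_le_div_iff₀ (by positivity) (by positivity)]
    have h1 : 0 < x * α := by positivity
    have h2 : x * α * (2 + α) ≤ (1 + α) ^ 2 := by nlinarith [mul_pos hα hα]
    nlinarith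
  · simp only [cseq]
    rw [if_neg (by omega), if_neg (by omega), if_neg (by omega)]
    push_cast
    have hn : (0:ℝ) ≤ n := Nat.cast_nonneg n
    rw [div_pow, div_mul_div_comm, div_le_div_iff₀ (by positivity) (by positivity)]
    have h1 : 0 < (x * α) ^ 2 := by positivity
    nlinarith [mul_pos h1 h1]

theorem scaled_bound (α : ℝ) (hα : 0 < α) (h : ℂ → ℂ)
    (hh : DifferentiableOn ℂ h (Metric.ball 0 1)) (hh0 : h 0 = 1)
    (hre : ∀ z ∈ Metric.ball (0:ℂ) 1, 0 < (h z).re)
    (Y : PowerSeries ℂ) (hY0 : PowerSeries.coeff 0 Y = 0)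
    (hYk : ∀ k : ℕ, 1 ≤ k → PowerSeries.coeff k Y
      = (α / (k + α) : ℂ) * (iteratedDeriv k h 0 / (k.factorial : ℂ)))
    (x : ℝ) (hx : 0 < x) (hx1 : x ≤ 1) (ρ : ℝ) (hρ : 0 < ρ) (hρ1 : ρ < 1) (N : ℕ) (hN : 1 ≤ N) :
    ‖PowerSeries.coeff N ((1 + PowerSeries.C (x:ℂ) * PowerSeries.rescale (ρ:ℂ) Y)⁻¹)‖
      ≤ 2 * (x * α / (N + α)) := by
  set Z : PowerSeries ℂ := 1 + PowerSeries.C (x:ℂ) * PowerSeries.rescale (ρ:ℂ) Y with hZ
  have hZ0 : PowerSeries.constantCoeff Z = 1 := by
    rw [hZ, map_add, map_mul, ← PowerSeries.coeff_zero_eq_constantCoeff_apply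
      (PowerSeries.rescale (ρ:ℂ) Y), PowerSeries.coeff_rescale, hY0]
    simp
  set w : ℝ → ℝ := fun t => (h (circleMap 0 ρ t)).re / (2 * Real.pi) with hw
  have hmem : ∀ t : ℝ, circleMap 0 ρ t ∈ Metric.ball (0:ℂ) 1 := by
    intro t
    rw [Metric.mem_ball, dist_zero_right]
    simp [circleMap, abs_of_pos hρ, hρ1]
  have hcont : Continuous (fun t : ℝ => h (circleMap 0 ρ t)) :=
    hh.continuousOn.comp_continuous (continuous_circleMap 0 ρ) hmem
  have hwc : Continuous w := (Complex.continuous_re.comp hcont).div_const _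
  have hw0 : ∀ t, 0 ≤ w t := by
    intro t
    have := hre _ (hmem t)
    simp only [hw]
    positivity
  have hmom := moments h hh hh0 ρ hρ hρ1
  have hw1 : ∫ t in (0:ℝ)..(2 * Real.pi), w t = 1 := by
    have h2 := hmom 0
    simp only [pow_zero, one_mul, if_true] at h2
    rw [intervalIntegral.integral_ofReal] at h2
    exact_mod_cast h2
  have hc0 : cseq x α 0 = 1 := by simp [cseq]
  have hcpos := cseq_pos x α hx hα
  have hclog := cseq_log x α hx hx1 hα
  have key := renewal_bound w (cseq x α) (bseq (cseq x α)) hc0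
    (bseq_nonneg _ hc0 hcpos hclog) (bseq_zero _) hcpos (bseq_renewal _ hc0) hwc hw0 hw1
    (fun k => if k = 0 then 1 else (ρ:ℂ) ^ k * (iteratedDeriv k h 0 / (k.factorial : ℂ)) / 2)
    hmom (fun n => PowerSeries.coeff n Z⁻¹) ?_ ?_ N hN
  · have h3 : cseq x α N = x * α / (N + α) := by
      rw [cseq, if_neg (by omega)]
    rw [← h3]
    exact key
  · show PowerSeries.coeff 0 Z⁻¹ = 1
    rw [PowerSeries.coeff_zero_eq_constantCoeff_apply, PowerSeries.constantCoeff_inv, hZ0]
    simp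
  · intro n hn
    have h4 : Z * Z⁻¹ = 1 := PowerSeries.mul_inv_cancel _ (by rw [hZ0]; exact one_ne_zero)
    have h5 := congrArg (PowerSeries.coeff n) h4
    rw [PowerSeries.coeff_mul, PowerSeries.coeff_one, if_neg (by omega)] at h5
    refine Eq.trans ?_ h5
    apply Finset.sum_congr rfl
    intro p _
    congr 1
    by_cases h0 : p.1 = 0
    · rw [if_pos h0, h0, PowerSeries.coeff_zero_eq_constantCoeff_apply, hZ0]
    · rw [if_neg h0, if_neg h0, hZ, map_add, PowerSeries.coeff_one, if_neg h0, zero_add,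
        PowerSeries.coeff_C_mul, PowerSeries.coeff_rescale, hYk p.1 (by omega), cseq, if_neg h0]
      push_cast
      ring

theorem q_bound (α : ℝ) (hα : 0 < α) (h : ℂ → ℂ)
    (hh : DifferentiableOn ℂ h (Metric.ball 0 1)) (hh0 : h 0 = 1)
    (hre : ∀ z ∈ Metric.ball (0:ℂ) 1, 0 < (h z).re)
    (Y : PowerSeries ℂ) (hY0 : PowerSeries.coeff 0 Y = 0)
    (hYk : ∀ k : ℕ, 1 ≤ k → PowerSeries.coeff k Y
      = (α / (k + α) : ℂ) * (iteratedDeriv k h 0 / (k.factorial : ℂ)))
    (x : ℝ) (hx : 0 < x) (hx1 : x ≤ 1) (N : ℕ) (hN : 1 ≤ N) :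
    ‖∑ k ∈ range N, (-(x:ℂ)) ^ k * PowerSeries.coeff N (Y ^ (k + 1))‖ ≤ 2 * (α / (N + α)) := by
  set q : ℂ := ∑ k ∈ range N, (-(x:ℂ)) ^ k * PowerSeries.coeff N (Y ^ (k + 1)) with hq
  have h1 : ∀ ρ : ℝ, 0 < ρ → ρ < 1 → ρ ^ N * ‖q‖ ≤ 2 * (α / (N + α)) := by
    intro ρ hρ hρ1
    have h2 := scaled_bound α hα h hh hh0 hre Y hY0 hYk x hx hx1 ρ hρ hρ1 N hN
    have h3 : PowerSeries.coeff 0 (PowerSeries.rescale (ρ:ℂ) Y) = 0 := by
      rw [PowerSeries.coeff_rescale, hY0, mul_zero]
    rw [geom_expansion _ h3, Finset.sum_range_succ'] at h2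
    have h4 : ∀ k ∈ range N, (-(x:ℂ)) ^ (k + 1) *
        PowerSeries.coeff N ((PowerSeries.rescale (ρ:ℂ) Y) ^ (k + 1))
        = (-(x:ℂ) * (ρ:ℂ) ^ N) * ((-(x:ℂ)) ^ k * PowerSeries.coeff N (Y ^ (k + 1))) := by
      intro k _
      rw [← map_pow, PowerSeries.coeff_rescale]
      ring
    rw [Finset.sum_congr rfl h4, ← Finset.mul_sum, ← hq, pow_zero, pow_zero, one_mul,
      PowerSeries.coeff_one, if_neg (by omega), add_zero, norm_mul, norm_mul, norm_neg, norm_pow,
      Complex.norm_real, Complex.norm_real, Real.norm_of_nonneg hx.le,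
      Real.norm_of_nonneg hρ.le] at h2
    have h5 : x * (ρ ^ N * ‖q‖) ≤ x * (2 * (α / (N + α))) := by
      calc x * (ρ ^ N * ‖q‖) = x * ρ ^ N * ‖q‖ := by ring
        _ ≤ 2 * (x * α / (N + α)) := h2
        _ = x * (2 * (α / (N + α))) := by ring
    exact le_of_mul_le_mul_left h5 hx
  have h6 : Filter.Tendsto (fun ρ : ℝ => ρ ^ N * ‖q‖) (nhdsWithin 1 (Set.Iio 1))
      (nhds ((1:ℝ) ^ N * ‖q‖)) := by
    apply Filter.Tendsto.mono_left _ nhdsWithin_le_nhds
    exact (continuous_id.pow N).mul continuous_const |>.tendsto 1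
  rw [one_pow, one_mul] at h6
  refine le_of_tendsto h6 ?_
  filter_upwards [Ioo_mem_nhdsLT (show (0:ℝ) < 1 by norm_num)] with ρ hρ
  exact h1 ρ hρ.1 hρ.2

/-! ### Beta integrals -/

/-- the beta moments -/
noncomputable def J (β : ℝ) (k : ℕ) : ℝ := ∫ x in (0:ℝ)..1, x ^ ((k:ℝ) - β) * (1 - x) ^ β

theorem J_int (β : ℝ) (h0 : 0 < β) (h1 : β < 1) (k : ℕ) :
    IntervalIntegrable (fun x : ℝ => x ^ ((k:ℝ) - β) * (1 - x) ^ β) volume 0 1 := by
  have hk : (0:ℝ) ≤ k := Nat.cast_nonneg k
  apply IntervalIntegrable.mul_continuousOn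
  · exact intervalIntegral.intervalIntegrable_rpow' (by linarith)
  · apply Continuous.continuousOn
    exact (continuous_const.sub continuous_id).rpow_const (fun _ => Or.inr h0.le)

theorem J_pos (β : ℝ) (h0 : 0 < β) (h1 : β < 1) (k : ℕ) : 0 < J β k := by
  apply intervalIntegral.intervalIntegral_pos_of_pos_on (J_int β h0 h1 k)
  · intro x hx
    exact mul_pos (Real.rpow_pos_of_pos hx.1 _) (Real.rpow_pos_of_pos (by linarith [hx.2]) _)
  · norm_num

theorem J_rec (β : ℝ) (h0 : 0 < β) (h1 : β < 1) (k : ℕ) :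
    (k + 2) * J β (k + 1) = (k + 1 - β) * J β k := by
  have hk : (0:ℝ) ≤ k := Nat.cast_nonneg k
  have hint : IntervalIntegrable (fun x : ℝ => (k + 1 - β) * (x ^ ((k:ℝ) - β) * (1 - x) ^ β)
      - (k + 2) * (x ^ (((k + 1 : ℕ):ℝ) - β) * (1 - x) ^ β)) volume 0 1 :=
    ((J_int β h0 h1 k).const_mul _).sub ((J_int β h0 h1 (k + 1)).const_mul _)
  have h2 := intervalIntegral.integral_eq_sub_of_hasDerivAt_of_le
    (f := fun x : ℝ => x ^ ((k:ℝ) + 1 - β) * (1 - x) ^ (1 + β))
    (show (0:ℝ) ≤ 1 by norm_num) ?_ ?_ hint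
  · rw [intervalIntegral.integral_sub ((J_int β h0 h1 k).const_mul _)
      ((J_int β h0 h1 (k + 1)).const_mul _), intervalIntegral.integral_const_mul,
      intervalIntegral.integral_const_mul] at h2
    have h3 : (0:ℝ) ^ ((k:ℝ) + 1 - β) = 0 := Real.zero_rpow (by linarith)
    have h4 : (1 - 1 : ℝ) ^ (1 + β) = 0 := by
      rw [sub_self]
      exact Real.zero_rpow (by linarith)
    simp only [h3, h4] at h2
    unfold J
    linarith
  · apply Continuous.continuousOn
    exact (continuous_id.rpow_const (fun _ => Or.inr (by linarith))).mul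
      ((continuous_const.sub continuous_id).rpow_const (fun _ => Or.inr (by linarith)))
  · intro x hx
    have hx0 : x ≠ 0 := hx.1.ne'
    have hx1 : 1 - x ≠ 0 := by linarith [hx.2]
    have d1 : HasDerivAt (fun x : ℝ => x ^ ((k:ℝ) + 1 - β))
        (((k:ℝ) + 1 - β) * x ^ ((k:ℝ) + 1 - β - 1)) x :=
      Real.hasDerivAt_rpow_const (Or.inl hx0)
    have d2 : HasDerivAt (fun x : ℝ => (1 - x) ^ (1 + β))
        ((-1) * (1 + β) * (1 - x) ^ (1 + β - 1)) x := by
      have := (((hasDerivAt_id x).const_sub 1).rpow_const (p := 1 + β) (Or.inl hx1))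
      simpa using this
    have d3 := d1.mul d2
    convert! d3 using 1
    have e1 : x ^ ((k:ℝ) + 1 - β - 1) = x ^ ((k:ℝ) - β) := by
      congr 1
      ring
    have e2 : x ^ ((k:ℝ) + 1 - β) = x * x ^ ((k:ℝ) - β) := by
      rw [show (k:ℝ) + 1 - β = 1 + ((k:ℝ) - β) by ring, Real.rpow_add hx.1, Real.rpow_one]
    have e3 : (1 - x) ^ (1 + β) = (1 - x) * (1 - x) ^ β := by
      rw [Real.rpow_add (by linarith [hx.2]), Real.rpow_one]
    have e4 : (1 - x) ^ (1 + β - 1) = (1 - x) ^ β := by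
      congr 1
      ring
    have e5 : x ^ (((k + 1 : ℕ):ℝ) - β) = x * x ^ ((k:ℝ) - β) := by
      rw [← e2]
      congr 1
      push_cast
      ring
    rw [e1, e2, e3, e4, e5]
    ring

/-! ### Averaging the bound -/

theorem average_bound (β : ℝ) (h0 : 0 < β) (h1 : β < 1) (N : ℕ) (y : ℕ → ℂ) (A : ℝ)
    (hq : ∀ x : ℝ, 0 < x → x ≤ 1 → ‖∑ k ∈ range N, (-(x:ℂ)) ^ k * y k‖ ≤ A) :
    ‖∑ k ∈ range N, ((-1) ^ k * (J β k : ℂ)) * y k‖ ≤ A * J β 0 := by
  have e1 : ∑ k ∈ range N, ((-1) ^ k * (J β k : ℂ)) * y k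
      = ∫ x in (0:ℝ)..1, ∑ k ∈ range N, ((-1) ^ k * y k) *
        ((x ^ ((k:ℝ) - β) * (1 - x) ^ β : ℝ) : ℂ) := by
    rw [intervalIntegral.integral_finsetSum]
    · apply Finset.sum_congr rfl
      intro k _
      rw [intervalIntegral.integral_const_mul, intervalIntegral.integral_ofReal, J]
      ring
    · intro k _
      have hi : IntervalIntegrable
          (fun x : ℝ => ((x ^ ((k:ℝ) - β) * (1 - x) ^ β : ℝ) : ℂ)) volume 0 1 :=
        ⟨(J_int β h0 h1 k).1.ofReal, (J_int β h0 h1 k).2.ofReal⟩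
      exact hi.const_mul _
  have e2 : ∀ x ∈ Set.Ioc (0:ℝ) 1, ‖∑ k ∈ range N, ((-1) ^ k * y k) *
        ((x ^ ((k:ℝ) - β) * (1 - x) ^ β : ℝ) : ℂ)‖
      ≤ A * (x ^ (((0:ℕ):ℝ) - β) * (1 - x) ^ β) := by
    intro x hx
    have e3 : ∑ k ∈ range N, ((-1) ^ k * y k) *
        ((x ^ ((k:ℝ) - β) * (1 - x) ^ β : ℝ) : ℂ)
        = (∑ k ∈ range N, (-(x:ℂ)) ^ k * y k) *
          ((x ^ (((0:ℕ):ℝ) - β) * (1 - x) ^ β : ℝ) : ℂ) := by
      rw [Finset.sum_mul]
      apply Finset.sum_congr rfl
      intro k _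
      have e4 : x ^ ((k:ℝ) - β) = x ^ k * x ^ (((0:ℕ):ℝ) - β) := by
        rw [show (k:ℝ) - β = (k:ℝ) + (((0:ℕ):ℝ) - β) by push_cast; ring, Real.rpow_add hx.1,
          Real.rpow_natCast]
      rw [e4]
      push_cast
      rw [neg_pow]
      ring
    have hnn : 0 ≤ x ^ (((0:ℕ):ℝ) - β) * (1 - x) ^ β :=
      mul_nonneg (Real.rpow_nonneg hx.1.le _) (Real.rpow_nonneg (by linarith [hx.2]) _)
    rw [e3, norm_mul, Complex.norm_real, Real.norm_of_nonneg hnn]
    exact mul_le_mul_of_nonneg_right (hq x hx.1 hx.2) hnn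
  rw [e1]
  have e5 : A * J β 0 = ∫ x in (0:ℝ)..1, A * (x ^ (((0:ℕ):ℝ) - β) * (1 - x) ^ β) := by
    rw [intervalIntegral.integral_const_mul, J]
  rw [e5]
  apply intervalIntegral.norm_integral_le_of_norm_le (by norm_num)
  · exact Filter.Eventually.of_forall e2
  · exact (J_int β h0 h1 0).const_mul _

/-! ### The theorem -/

/-- The class `B_1(α)` of Bazilevic functions: `f` is analytic in the unit disk, `f(0) = 0`,
`f'(0) = 1`, `f(z)/z` has no zeros (so that it has an analytic logarithm `g` with `g(0) = 0`), and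
`Re ((f(z)/z)^(α-1) f'(z)) > 0`, the power being `exp ((α-1) g(z))`, i.e. the branch equal to `1`
at `z = 0`. -/
def IsBazilevic1 (α : ℝ) (f : ℂ → ℂ) : Prop :=
  DifferentiableOn ℂ f (Metric.ball 0 1) ∧ f 0 = 0 ∧ deriv f 0 = 1 ∧
  ∃ g : ℂ → ℂ, DifferentiableOn ℂ g (Metric.ball 0 1) ∧ g 0 = 0 ∧
    (∀ z ∈ Metric.ball (0:ℂ) 1, f z = z * exp (g z)) ∧
    ∀ z ∈ Metric.ball (0:ℂ) 1, 0 < (exp (((α:ℂ) - 1) * g z) * deriv f z).re

/-- `|a_n| ≤ 2 / (n - 1 + α)` for every `f = z + a_2 z^2 + ...` in `B_1(α)`, every real `α ≥ 1`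
and every `n ≥ 2`. -/
theorem result : ∀ α : ℝ, 1 ≤ α → ∀ f : ℂ → ℂ, IsBazilevic1 α f →
    ∀ n : ℕ, 2 ≤ n → ‖iteratedDeriv n f 0 / (n.factorial : ℂ)‖ ≤ 2 / ((n:ℝ) - 1 + α) := by
  intro α hα f hf n hn
  obtain ⟨hfd, hf0, hf1, g, hg, hg0, hfg, hre⟩ := hf
  have hα0 : 0 < α := by linarith
  have hball : Metric.ball (0:ℂ) 1 ∈ nhds (0:ℂ) := Metric.ball_mem_nhds _ one_pos
  have hgA : AnalyticAt ℂ g 0 := hg.analyticAt hball
  set u : ℂ → ℂ := fun z => exp (g z) with hu
  set F : ℂ → ℂ := fun z => exp (α * g z) with hF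
  set h : ℂ → ℂ := fun z => exp (((α:ℂ) - 1) * g z) * deriv f z with hh
  have huA : AnalyticAt ℂ u 0 := hgA.cexp
  have hFA : AnalyticAt ℂ F 0 := (analyticAt_const.mul hgA).cexp
  have hidA : AnalyticAt ℂ (fun z : ℂ => z) 0 := analyticAt_id
  have hgd : ∀ z ∈ Metric.ball (0:ℂ) 1, HasDerivAt g (deriv g z) z := by
    intro z hz
    exact (hg.differentiableAt (Metric.isOpen_ball.mem_nhds hz)).hasDerivAt
  have hud : ∀ z ∈ Metric.ball (0:ℂ) 1, deriv u z = u z * deriv g z := by
    intro z hz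
    exact (hgd z hz).cexp.deriv
  have hFd : ∀ z ∈ Metric.ball (0:ℂ) 1, deriv F z = F z * (α * deriv g z) := by
    intro z hz
    exact ((hgd z hz).const_mul (α:ℂ)).cexp.deriv
  have hfder : ∀ z ∈ Metric.ball (0:ℂ) 1, deriv f z = u z * (1 + z * deriv g z) := by
    intro z hz
    have e1 : f =ᶠ[nhds z] fun z => z * u z := by
      filter_upwards [Metric.isOpen_ball.mem_nhds hz] with y hy
      exact hfg y hy
    rw [e1.deriv_eq]
    have := ((hasDerivAt_id z).mul (hgd z hz).cexp).deriv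
    rw [show (fun z => z * u z) = (id * fun z => exp (g z)) from rfl, this]
    simp only [hu, id]
    ring
  have hhF : ∀ z ∈ Metric.ball (0:ℂ) 1, h z = F z + (1 / α) * (z * deriv F z) := by
    intro z hz
    have hαc : (α:ℂ) ≠ 0 := by exact_mod_cast hα0.ne'
    rw [hFd z hz]
    simp only [hh]
    rw [hfder z hz]
    have e1 : F z = exp (((α:ℂ) - 1) * g z) * u z := by
      simp only [hF, hu]
      rw [← Complex.exp_add]
      congr 1
      ring
    rw [e1]
    field_simp
  have hhd : DifferentiableOn ℂ h (Metric.ball 0 1) := by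
    refine DifferentiableOn.mul ?_ (hfd.deriv Metric.isOpen_ball)
    exact (hg.const_mul _).cexp
  have hh0 : h 0 = 1 := by
    simp only [hh]
    rw [hg0, hf1]
    simp
  -- Taylor series
  have hTF : PowerSeries.coeff 0 (T F) = 1 := by
    rw [T_coeff]
    simp [hF, hg0]
  have hTu : PowerSeries.coeff 0 (T u) = 1 := by
    rw [T_coeff]
    simp [hu, hg0]
  have hdFA : AnalyticAt ℂ (deriv F) 0 := hFA.deriv
  have hduA : AnalyticAt ℂ (deriv u) 0 := huA.deriv
  have hcA : AnalyticAt ℂ (fun _ : ℂ => (1 / α : ℂ)) 0 := analyticAt_const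
  have hTc : T (fun _ : ℂ => (1 / α : ℂ)) = PowerSeries.C (1 / α : ℂ) := by
    ext k
    rw [T_coeff, PowerSeries.coeff_C, iteratedDeriv_const]
    split_ifs with h0
    · subst h0
      simp
    · simp
  have hcdF : AnalyticAt ℂ (fun z => (1 / α : ℂ) * deriv F z) 0 := hcA.mul hdFA
  have hzdF : AnalyticAt ℂ (fun z => z * deriv F z) 0 := hidA.mul hdFA
  have hczdF : AnalyticAt ℂ (fun z => (1 / α : ℂ) * (z * deriv F z)) 0 := hcA.mul hzdF
  have hrel : T F * PowerSeries.derivative ℂ (T u)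
      = PowerSeries.C (1 / α : ℂ) * PowerSeries.derivative ℂ (T F) * T u := by
    rw [← T_deriv, ← T_deriv, ← hTc, ← T_mul hFA hduA, ← T_mul hcA hdFA,
      ← T_mul hcdF huA]
    apply T_congr
    filter_upwards [hball] with z hz
    have hαc : (α:ℂ) ≠ 0 := by exact_mod_cast hα0.ne'
    rw [hud z hz, hFd z hz]
    field_simp
  have hTh : T h = T F + PowerSeries.C (1 / α : ℂ) * (PowerSeries.X *
      PowerSeries.derivative ℂ (T F)) := by
    rw [← T_deriv, ← hTc, ← T_id, ← T_mul hidA hdFA, ← T_mul hcA hzdF]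
    ext k
    rw [map_add, T_coeff, T_coeff, T_coeff, ← add_div]
    congr 1
    rw [← iteratedDeriv_fun_add hFA.contDiffAt hczdF.contDiffAt]
    apply Filter.EventuallyEq.iteratedDeriv_eq
    filter_upwards [hball] with z hz
    exact hhF z hz
  have hFk : ∀ k : ℕ, 1 ≤ k → PowerSeries.coeff k (T F - 1)
      = (α / (k + α) : ℂ) * (iteratedDeriv k h 0 / (k.factorial : ℂ)) := by
    intro k hk
    obtain ⟨m, rfl⟩ : ∃ m, k = m + 1 := ⟨k - 1, by omega⟩
    have e1 := congrArg (PowerSeries.coeff (m + 1)) hTh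
    rw [map_add, PowerSeries.coeff_C_mul, PowerSeries.coeff_succ_X_mul,
      PowerSeries.coeff_derivative, T_coeff h] at e1
    rw [e1, map_sub, PowerSeries.coeff_one, if_neg (by omega), sub_zero]
    have hαc : (α:ℂ) ≠ 0 := by exact_mod_cast hα0.ne'
    have h2 : (((m + 1 : ℕ) : ℂ) + α) ≠ 0 := by
      have : (0:ℝ) < ((m + 1 : ℕ) : ℝ) + α := by positivity
      exact_mod_cast this.ne'
    push_cast at h2 ⊢
    field_simp
    ring
  have hY0 : PowerSeries.coeff 0 (T F - 1) = 0 := by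
    rw [map_sub, hTF]
    simp
  -- coefficients of `f`
  obtain ⟨N, rfl⟩ : ∃ N, n = N + 1 := ⟨n - 1, by omega⟩
  have hN : 1 ≤ N := by omega
  have hTf : T f = PowerSeries.X * T u := by
    rw [← T_id, ← T_mul hidA huA]
    apply T_congr
    filter_upwards [hball] with z hz
    exact hfg z hz
  have hcoef : iteratedDeriv (N + 1) f 0 / ((N + 1).factorial : ℂ) = PowerSeries.coeff N (T u) := by
    rw [← T_coeff, hTf, PowerSeries.coeff_succ_X_mul]
  rw [hcoef]
  have hgoal : 2 / (((N + 1 : ℕ) : ℝ) - 1 + α) = 2 * (1 / (N + α)) := by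
    push_cast
    rw [show (N:ℝ) + 1 - 1 + α = N + α by ring]
    ring
  rw [hgoal]
  have hqb := fun x hx hx1 => q_bound α hα0 h hhd hh0 hre (T F - 1) hY0 hFk x hx hx1 N hN
  rcases eq_or_lt_of_le hα with h1 | h1
  · -- `α = 1`
    have hFu : F = u := by
      funext z
      simp only [hF, hu, ← h1]
      simp
    have h2 : PowerSeries.coeff N (T u) = ∑ k ∈ range N, (-((0:ℝ):ℂ)) ^ k *
        PowerSeries.coeff N ((T F - 1) ^ (k + 1)) := by
      obtain ⟨M, rfl⟩ : ∃ M, N = M + 1 := ⟨N - 1, by omega⟩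
      rw [Finset.sum_range_succ', Finset.sum_eq_zero]
      · rw [hFu]
        simp
      · intro k _
        simp
    rw [h2]
    have h3 : Filter.Tendsto (fun x : ℝ => ‖∑ k ∈ range N, (-(x:ℂ)) ^ k *
        PowerSeries.coeff N ((T F - 1) ^ (k + 1))‖) (nhdsWithin 0 (Set.Ioi 0))
        (nhds ‖∑ k ∈ range N, (-((0:ℝ):ℂ)) ^ k *
        PowerSeries.coeff N ((T F - 1) ^ (k + 1))‖) := by
      apply Filter.Tendsto.mono_left _ nhdsWithin_le_nhds
      apply Continuous.tendsto (f := fun x : ℝ => ‖∑ k ∈ range N, (-(x:ℂ)) ^ k *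
        PowerSeries.coeff N ((T F - 1) ^ (k + 1))‖)
      fun_prop
    refine le_of_tendsto h3 ?_
    filter_upwards [Ioc_mem_nhdsGT (show (0:ℝ) < 1 by norm_num)] with x hx
    have := hqb x hx.1 hx.2
    rw [← h1] at this ⊢
    exact this
  · -- `α > 1`
    set β : ℝ := 1 / α with hβ
    have hβ0 : 0 < β := by positivity
    have hβ1 : β < 1 := by
      rw [hβ, div_lt_one hα0]
      exact h1
    have hJ0 := J_pos β hβ0 hβ1 0
    have hJc : (J β 0 : ℂ) ≠ 0 := by exact_mod_cast hJ0.ne'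
    set bb : ℕ → ℂ := fun k => if k = 0 then 1 else
      (β / J β 0 : ℂ) * ((-1) ^ (k - 1) * (J β (k - 1) : ℂ)) with hbb
    have hb0 : bb 0 = 1 := by simp [hbb]
    have hbrec : ∀ k : ℕ, bb (k + 1) * (k + 1) = bb k * ((1 / α : ℂ) - k) := by
      intro k
      have hβc : (1 / α : ℂ) = (β : ℂ) := by
        rw [hβ]
        push_cast
        rfl
      rw [hβc]
      rcases k with _ | k
      · simp only [hbb]
        simp
        field_simp
      · simp only [hbb]
        rw [if_neg (by omega), if_neg (by omega)]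
        simp only [Nat.add_sub_cancel]
        have h5 := J_rec β hβ0 hβ1 k
        have h6 : ((k:ℂ) + 2) * (J β (k + 1) : ℂ) = ((k:ℂ) + 1 - β) * (J β k : ℂ) := by
          exact_mod_cast h5
        push_cast
        rw [pow_succ]
        linear_combination (-(β / J β 0 : ℂ) * (-1) ^ k) * h6
    have hexp := binom_expansion (T F) (T u) (1 / α : ℂ) hTF hTu hrel bb hb0 hbrec N
    rw [Finset.sum_range_succ', pow_zero, PowerSeries.coeff_one, if_neg (by omega), mul_zero,
      add_zero] at hexp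
    have h7 : ∀ k ∈ range N, bb (k + 1) * PowerSeries.coeff N ((T F - 1) ^ (k + 1))
        = (β / J β 0 : ℂ) * (((-1) ^ k * (J β k : ℂ)) *
          PowerSeries.coeff N ((T F - 1) ^ (k + 1))) := by
      intro k _
      simp only [hbb]
      rw [if_neg (by omega)]
      simp only [Nat.add_sub_cancel]
      ring
    rw [Finset.sum_congr rfl h7, ← Finset.mul_sum] at hexp
    rw [hexp, norm_mul]
    have h8 := average_bound β hβ0 hβ1 N
      (fun k => PowerSeries.coeff N ((T F - 1) ^ (k + 1))) _ hqb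
    have h9 : ‖(β / J β 0 : ℂ)‖ = β / J β 0 := by
      rw [← Complex.ofReal_div, Complex.norm_real, Real.norm_of_nonneg (by positivity)]
    rw [h9]
    calc β / J β 0 * ‖∑ k ∈ range N, (-1) ^ k * (J β k : ℂ) *
          PowerSeries.coeff N ((T F - 1) ^ (k + 1))‖
        ≤ β / J β 0 * (2 * (α / (N + α)) * J β 0) :=
          mul_le_mul_of_nonneg_left h8 (by positivity)
      _ = (β * α) * (2 * (1 / (N + α))) * (J β 0 / J β 0) := by ring
      _ = 2 * (1 / (N + α)) := by
          rw [div_self hJ0.ne', show β * α = 1 by rw [hβ]; field_simp]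
          ring

end Pool.Agent.Results.MP_7a60ac_an.SharpBound
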